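import Pool.Agent.K7.H42.SD.All

set_option autoImplicit false

/-!
# Domination on strong comparability graphs is solvable in polynomial time

The language of all pairs `(G, K)` such that `G` is a strong comparability graph with a dominating set
of at most `K` vertices is in `P` (Mathlib's polynomial-time Turing machines). So DOMINATION
restricted to strong comparability graphs is solvable in polynomial time, without a given ordering.

The algorithm.  (1) A strong ordering is computed: if `u` is adjacent to `x` and `v` to `y`, but `u`
is not adjacent to `y` and `v` not to `x`, then `u < v` forces `y < x`; the classes of these
implications can be oriented one by one (a triangle lemma in the style of Gallai and Golumbic).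
(2) With a strong ordering the minimum size of a dominating set is the least cost of a scan: the rows
of the adjacency matrix are removed from the top or from the bottom, four registers hold vertices, a
vertex that enters the registers costs `1`, a removed row that is not dominated by the registers
costs `1`.  A dominating set gives a scan: take a minimum dominating set `D` with the fewest isolated
vertices and a minimal `P ⊆ D` with the same neighbourhood.  The private neighbours of the elements of
`P` are in the opposite order, a row between two of them is covered by `P` if and only if it is covered
by one of the two elements, and an isolated vertex of `P` is in a register when its row is removed, as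
a pair of isolated vertices for which the order of the removals would be contradictory could be
exchanged for two adjacent vertices.
-/

namespace Pool.Agent.Results.MP_360560_lc.PolynomialTime

open Pool.Agent.NPC

/-- An instance of DOMINATION: the list of the adjacency lists of the vertices `0, ..., n - 1`, and
the bound (in binary). -/
abbrev Instance := List (List ℕ) × ℕ

/-- The graph with the vertices `0, ..., n - 1` given by the list of its `n` adjacency lists
(symmetrised, loops are ignored). -/
def graph (L : List (List ℕ)) : SimpleGraph (Fin L.length) where
  Adj i j := i ≠ j ∧ (j.1 ∈ L.get i ∨ i.1 ∈ L.get j)
  symm := ⟨fun _ _ h => ⟨h.1.symm, h.2.symm⟩⟩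
  loopless := ⟨fun _ h => h.1 rfl⟩

/-- Strong comparability graphs: for some ordering `σ 0, σ 1, ...` of the vertices the adjacency
matrix has no rows `i < j` and columns `k < l` with entries `A i k = A j l = 1` and
`A i l = A j k = 0`. -/
def StrongComparability {n : ℕ} (G : SimpleGraph (Fin n)) : Prop :=
  ∃ σ : Equiv.Perm (Fin n), ∀ i j k l : Fin n, i < j → k < l →
    ¬ (G.Adj (σ i) (σ k) ∧ G.Adj (σ j) (σ l) ∧ ¬ G.Adj (σ i) (σ l) ∧ ¬ G.Adj (σ j) (σ k))

/-- There is a dominating set with at most `K` vertices. -/
def HasDominatingSet {n : ℕ} (G : SimpleGraph (Fin n)) (K : ℕ) : Prop :=
  ∃ D : Finset (Fin n), D.card ≤ K ∧ ∀ v, v ∈ D ∨ ∃ d ∈ D, G.Adj d v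

/-- DOMINATION restricted to strong comparability graphs is in `P`. -/
theorem result : InPP (fun I : Instance =>
    StrongComparability (graph I.1) ∧ HasDominatingSet (graph I.1) I.2) :=
  Pool.Agent.K7.H42.SD.all

end Pool.Agent.Results.MP_360560_lc.PolynomialTime
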